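import Pool.Agent.Run7.h697.TP.Direct
import Pool.Agent.Run7.h851.T.Final

/-!
# MP_2000e9_nt: four weights at most `63` with independent lines

There are `b ∈ {5, 7}` and an odd `c` with `b < c ≤ 63` such that the sum `Z_0 + Z_3 + ℚ ζ(b) + ℚ ζ(c)` is direct and has
dimension `4`; the depth-one parts `ℚ`, `ℚ ζ(3)`, `ℚ ζ(5)`, ..., `ℚ ζ(63)` of the spaces `Z_N` together span a space of
dimension at least `4` (the conjecture predicts `32`).
-/

set_option autoImplicit false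

namespace Pool.Agent.Results.MP_2000e9_nt.FourOddWeights

/-- `Z_N`: the `ℚ`-span of the multiple zeta values
`ζ(n_1, …, n_r) = ∑_{0 < k_1 < ⋯ < k_r} k_1^(-n_1) ⋯ k_r^(-n_r)` (`n_i ≥ 1`, `n_r ≥ 2`) of weight `N`;
for `r = 0` the value is `1` and the weight `0` -/
noncomputable def Z (N : ℕ) : Submodule ℚ ℝ :=
  Submodule.span ℚ
    {x : ℝ | ∃ r : ℕ, ∃ n : Fin r → ℕ,
      (∀ i, 1 ≤ n i) ∧ (∀ h : 0 < r, 2 ≤ n ⟨r - 1, Nat.sub_lt h one_pos⟩) ∧ (∑ i, n i) = N ∧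
      x = ∑' k : {k : Fin r → ℕ // StrictMono k ∧ ∀ i, 1 ≤ k i},
            ∏ i, (((k.1 i : ℕ) : ℝ) ^ (n i))⁻¹}

/-- `ζ(j)` for `j ≥ 2` -/
noncomputable def zeta (j : ℕ) : ℝ := ∑' n : ℕ, 1 / ((n : ℝ) + 1) ^ j

open Pool.Agent.H447R2.MZ in
theorem Zs_eq_Z (N : ℕ) : Zs N = Z N := by
  apply le_antisymm
  · unfold Zs Z
    rw [Submodule.span_le]
    rintro x ⟨t, k, h1, h2, h3, rfl⟩
    refine Submodule.subset_span ⟨t, k ∘ Fin.rev, fun i => h1 _, fun h => ?_, ?_, ?_⟩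
    · have := h2 h
      have e : Fin.rev (⟨t - 1, Nat.sub_lt h one_pos⟩ : Fin t) = ⟨0, h⟩ := by
        ext
        simp only [Fin.val_rev]
        omega
      rw [Function.comp_apply, e]
      exact this
    · rw [← h3]
      exact Fintype.sum_equiv Fin.revPerm _ _ fun i => rfl
    · let e : {m : Fin t → ℕ // StrictAnti m ∧ ∀ i, 1 ≤ m i} ≃ {k : Fin t → ℕ // StrictMono k ∧ ∀ i, 1 ≤ k i} :=
        { toFun := fun m => ⟨m.1 ∘ Fin.rev, fun i j hij => m.2.1 (Fin.rev_lt_rev.2 hij), fun i => m.2.2 _⟩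
          invFun := fun m => ⟨m.1 ∘ Fin.rev, fun i j hij => m.2.1 (Fin.rev_lt_rev.2 hij), fun i => m.2.2 _⟩
          left_inv := fun m => by
            apply Subtype.ext
            funext i
            simp
          right_inv := fun m => by
            apply Subtype.ext
            funext i
            simp }
      rw [← e.tsum_eq]
      refine tsum_congr fun m => ?_
      exact Fintype.prod_equiv Fin.revPerm _ _ fun i => by simp [e]
  · unfold Zs Z
    rw [Submodule.span_le]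
    rintro x ⟨t, k, h1, h2, h3, rfl⟩
    refine Submodule.subset_span ⟨t, k ∘ Fin.rev, fun i => h1 _, fun h => ?_, ?_, ?_⟩
    · have := h2 h
      have e : Fin.rev (⟨0, h⟩ : Fin t) = ⟨t - 1, Nat.sub_lt h one_pos⟩ := by
        ext
        simp only [Fin.val_rev]
        omega
      rw [Function.comp_apply, e]
      exact this
    · rw [← h3]
      exact Fintype.sum_equiv Fin.revPerm _ _ fun i => rfl
    · let e : {m : Fin t → ℕ // StrictMono m ∧ ∀ i, 1 ≤ m i} ≃ {k : Fin t → ℕ // StrictAnti k ∧ ∀ i, 1 ≤ k i} :=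
        { toFun := fun m => ⟨m.1 ∘ Fin.rev, fun i j hij => m.2.1 (Fin.rev_lt_rev.2 hij), fun i => m.2.2 _⟩
          invFun := fun m => ⟨m.1 ∘ Fin.rev, fun i j hij => m.2.1 (Fin.rev_lt_rev.2 hij), fun i => m.2.2 _⟩
          left_inv := fun m => by
            apply Subtype.ext
            funext i
            simp
          right_inv := fun m => by
            apply Subtype.ext
            funext i
            simp }
      rw [← e.tsum_eq]
      refine tsum_congr fun m => ?_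
      exact Fintype.prod_equiv Fin.revPerm _ _ fun i => by simp [e]

/-- (1) For some `b ∈ {5, 7}` and some odd `c`, `b < c ≤ 63`: `ζ(b) ∈ Z_b`, `ζ(c) ∈ Z_c`, and if `z_0 ∈ Z_0`, `z_3 ∈ Z_3`,
`z_b ∈ ℚ ζ(b)`, `z_c ∈ ℚ ζ(c)` have sum `0`, then all four are `0`.
(2) The space spanned by `1 ∈ Z_0` and `ζ(N) ∈ Z_N`, `N = 3, 5, 7, ..., 63`, has dimension at least `4`. -/
theorem result :
    (∃ b c : ℕ, (b = 5 ∨ b = 7) ∧ Odd c ∧ b < c ∧ c ≤ 63 ∧ zeta b ∈ Z b ∧ zeta c ∈ Z c ∧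
      ∀ x0 ∈ Z 0, ∀ x3 ∈ Z 3, ∀ xb ∈ Submodule.span ℚ {zeta b}, ∀ xc ∈ Submodule.span ℚ {zeta c},
        x0 + x3 + xb + xc = 0 → x0 = 0 ∧ x3 = 0 ∧ xb = 0 ∧ xc = 0) ∧
    4 ≤ Module.finrank ℚ (Submodule.span ℚ (Set.range
      (fun i : Fin 32 => if i.1 = 0 then (1 : ℝ) else zeta (2 * i.1 + 1)))) := by
  constructor
  · obtain ⟨b, c, hb, hc, hbc, hc63, h⟩ := Pool.Agent.Run7.h851.T.Z_explicit
    refine ⟨b, c, hb, hc, hbc, hc63, ?_, ?_, ?_⟩
    · rw [← Zs_eq_Z]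
      exact Pool.Agent.H447R2.MZ.zeta_mem b (by omega)
    · rw [← Zs_eq_Z]
      exact Pool.Agent.H447R2.MZ.zeta_mem c (by omega)
    · intro x0 h0 x3 h3 xb hxb xc hxc e
      rw [← Zs_eq_Z] at h0 h3
      exact Pool.Agent.Run7.h697.TP.direct_of h h0 h3 hxb hxc e
  · exact Pool.Agent.Run7.h851.T.Z_main

end Pool.Agent.Results.MP_2000e9_nt.FourOddWeights
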