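import Mathlib
import Pool.Agent.Run7.h867.HW.Num

/-!
# Lyndon words of typical different weights have no polynomial relation of large height

By Brown the values at the Lyndon words in the letters 3 < 2 generate the algebra of the multiple zeta values, and the
conjecture (dimensions and direct sum) says that they are algebraically independent over the rational numbers.

Let `W_1, ..., W_N` be weights in the window `[w, w + M)`, `M ≤ w`, and let `S` be a finite set of monomials in `N`
variables.  For each tuple of weights let `p(W)` be the proportion of the `N`-tuples of Lyndon words of weights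
`W_1, ..., W_N` for which some nonzero integer polynomial `P` with monomials in `S` and coefficients at most `H` in
absolute value vanishes at the multiple zeta values `v` of the words, or `|S|·|P(v)|` is smaller than the absolute value
of one of its monomials.  Then the average of `p(W)` over the `M^N` tuples of weights is at most
`C·C(|S|,2)·log w·(log(|S| H) + log w) / M`, `C` absolute.  The height `H` may be as large as `exp(δ M / log w)`.

Proof.  Inserting a letter between words of at least `t` letters divides a multiple zeta value by at least `t^2`.  This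
gives a Kraft inequality: the sum of the probabilities of the words `T s U`, `T` and `U` fixed, with their values in an
interval `[v, 2^y v]` is at most `y / (2 log_2 t) + 1` times the probability of `T U`, where a letter `b` has the
probability `x^b`, `x^2 + x^3 = 1`.  A Lyndon word which contains a power `a^l` of the smaller letter begins with `a^l`;
for `x^(a l) = log^2 w / w` only few words do not contain `a^l`, and the others have the part `a^l` of the small
probability `log^2 w / w` at their beginning, while the Lyndon words are at least the proportion `1 / (10000 w)` of all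
words.
-/

set_option autoImplicit false

namespace Pool.Agent.Results.MP_2000e9_nt.TypicalLyndonWeights

open Finset Filter Topology

/-- the sum of `∏_j 1 / m_j ^ k_j` over `m > m_1 > ... > m_r ≥ 1` (it is `1` for the empty index) -/
noncomputable def trunc : List ℕ → ℕ → ℝ
  | [], _ => 1
  | a :: s, m => ∑ j ∈ Finset.Ico 1 m, 1 / (j : ℝ) ^ a * trunc s j

/-- the multiple zeta value of the index `k_1, ..., k_r`, the limit of the truncated sums; `k_1` belongs to the largest
variable -/
noncomputable def zeta (s : List ℕ) : ℝ := limUnder atTop (trunc s)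

/-- the words of weight `n` in the letters 2 and 3 -/
def words (n : ℕ) : Set (List ℕ) := {w | (∀ a ∈ w, a = 2 ∨ a = 3) ∧ w.sum = n}

/-- Lyndon words for the order `r` of the letters: nonempty words which are smaller than all their proper nonempty
suffixes, in the lexicographic order -/
def IsLyndon (r : ℕ → ℕ → Prop) (w : List ℕ) : Prop :=
  w ≠ [] ∧ ∀ x v : List ℕ, x ≠ [] → v ≠ [] → x ++ v = w → List.Lex r w v

/-- the words of weight `n` in the letters 2 and 3 which are Lyndon words for the order `r` of the letters, if they are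
read from the left to the right (`rev = false`) or from the right to the left (`rev = true`) -/
def lyndon (r : ℕ → ℕ → Prop) (rev : Bool) (n : ℕ) : Set (List ℕ) :=
  {w ∈ words n | IsLyndon r (if rev then w.reverse else w)}

/-- the tuples of Lyndon words of weights `W_1, ..., W_N` with multiple zeta values `v_1, ..., v_N` for which there is a
nonzero integer polynomial `P` with monomials in `S` and coefficients at most `H` in absolute value such that
`P(v) = 0`, or `|S|·|P(v)|` is smaller than the absolute value of a monomial of `P` at `v` -/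
def exceptional {N : ℕ} (r : ℕ → ℕ → Prop) (rev : Bool) (S : Finset (Fin N →₀ ℕ)) (H : ℕ) (W : Fin N → ℕ) :
    Set (Fin N → List ℕ) :=
  {u | (∀ i, u i ∈ lyndon r rev (W i)) ∧ ∃ P : MvPolynomial (Fin N) ℤ, P ≠ 0 ∧ P.support ⊆ S ∧
    (∀ α, |P.coeff α| ≤ H) ∧ (MvPolynomial.aeval (fun i => zeta (u i)) P = 0 ∨
      ∃ α ∈ P.support, (#S : ℝ) * |MvPolynomial.aeval (fun i => zeta (u i)) P| < |∏ i, zeta (u i) ^ α i|)}

theorem trunc_same (s : List ℕ) : ∀ m, trunc s m = Run7.h867.MZ.tr s m := by
  induction s with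
  | nil => intro m; rfl
  | cons a s ih =>
    intro m
    rw [trunc, Run7.h867.MZ.tr]
    exact sum_congr rfl fun j _ => by rw [ih]

theorem zeta_same (s : List ℕ) : zeta s = Run7.h867.MZ.mz s := by
  have : trunc s = Run7.h867.MZ.tr s := funext (trunc_same s)
  rw [zeta, Run7.h867.MZ.mz, this]

theorem words_same (n : ℕ) : words n = (Run7.h867.HW.hw n : Set (List ℕ)) := by
  ext s
  rw [mem_coe, Run7.h867.HW.mem_hw]
  simp only [Run7.h867.HW.mem_D23]
  rfl

theorem ne_nil {n : ℕ} (hn : 1 ≤ n) {s : List ℕ} (hs : s ∈ Run7.h867.HW.hw n) : s ≠ [] := by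
  have h3 := Run7.h867.HW.len_hw hs
  rintro rfl
  simp only [List.length_nil] at h3
  omega

theorem adm_of {n : ℕ} (hn : 1 ≤ n) {s : List ℕ} (hs : s ∈ Run7.h867.HW.hw n) : s ∈ Run7.h867.MZ.adm n := by
  obtain ⟨h1, h2⟩ := Run7.h867.HW.mem_hw.1 hs
  have h4 := Run7.h867.HW.mem_adm (fun a ha => Run7.h867.HW.two_le_D23 a (h1 a ha)) (ne_nil hn hs)
  rw [h2] at h4
  exact h4

theorem mz_pos {n : ℕ} (hn : 1 ≤ n) {s : List ℕ} (hs : s ∈ Run7.h867.HW.hw n) : 0 < Run7.h867.MZ.mz s := by
  have h1 := adm_of hn hs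
  have h3 := Run7.h867.HW.len_hw hs
  have h2 : 2 ≤ n := by omega
  rw [show n = n - 2 + 2 by omega] at h1
  exact Run7.h867.MZ.mz_pos h1

theorem abs_same {n : ℕ} (hn : 1 ≤ n) {s : List ℕ} (hs : s ∈ Run7.h867.HW.hw n) :
    |Run7.h867.MZ.mz s| = Run7.h867.AM.V (Run7.h867.HW.wn s) :=
  Run7.h867.HW.abs_mz_wn (fun a ha => Run7.h867.HW.two_le_D23 a ((Run7.h867.HW.mem_hw.1 hs).1 a ha)) (ne_nil hn hs)

theorem reverse_mem {n : ℕ} {s : List ℕ} : s.reverse ∈ Run7.h867.HW.hw n ↔ s ∈ Run7.h867.HW.hw n := by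
  rw [Run7.h867.HW.mem_hw, Run7.h867.HW.mem_hw, List.sum_reverse]
  simp

open Classical in
/-- the Lyndon words as a finite set -/
noncomputable def lf (r : ℕ → ℕ → Prop) (rev : Bool) (n : ℕ) : Finset (List ℕ) :=
  (Run7.h867.HW.hw n).filter fun w => Run7.h867.HW.IsLyn r (if rev then w.reverse else w)

open Classical in
theorem lf_card (r : ℕ → ℕ → Prop) (rev : Bool) (n : ℕ) : #(lf r rev n) = #(Run7.h867.HW.lw r n) := by
  cases rev with
  | false => rfl
  | true =>
    have h : lf r true n = (Run7.h867.HW.lw r n).image List.reverse := by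
      ext w
      rw [lf, mem_filter, mem_image]
      constructor
      · rintro ⟨h1, h2⟩
        refine ⟨w.reverse, ?_, List.reverse_reverse w⟩
        rw [Run7.h867.HW.lw, mem_filter]
        exact ⟨reverse_mem.2 h1, h2⟩
      · rintro ⟨v, hv, rfl⟩
        rw [Run7.h867.HW.lw, mem_filter] at hv
        refine ⟨reverse_mem.2 hv.1, ?_⟩
        rw [if_pos rfl, List.reverse_reverse]
        exact hv.2
    rw [h, card_image_of_injective _ List.reverse_injective]

open Classical in
theorem lyndon_same (r : ℕ → ℕ → Prop) (rev : Bool) (n : ℕ) : lyndon r rev n = (lf r rev n : Set (List ℕ)) := by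
  ext w
  rw [mem_coe, lf, mem_filter, lyndon, words_same]
  rfl

open Classical in
/-- the estimate for one family -/
theorem estimate {r : ℕ → ℕ → Prop} {a b : ℕ} (hab : r a b) (ha : a ∈ Run7.h867.HW.D23) (hb : b ∈ Run7.h867.HW.D23)
    (hne : a ≠ b) (hr : ∀ c ∈ Run7.h867.HW.D23, ¬ r c a) :
    ∃ n₀ : ℕ, 1 ≤ n₀ ∧ (∀ n, n₀ ≤ n → 0 < #(Run7.h867.HW.lw r n)) ∧ ∀ (rev : Bool) (w M : ℕ) (x y : ℝ),
      n₀ ≤ w → 1 ≤ M → M ≤ w → 0 ≤ y →
      ∑ n ∈ Ico w (w + M), (#((lf r rev n).filter fun l => x ≤ Real.logb 2 |Run7.h867.MZ.mz l| ∧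
        Real.logb 2 |Run7.h867.MZ.mz l| ≤ x + y) : ℝ) / #(lf r rev n) ≤
      10 ^ 8 * (Real.log w * (y + Real.log w)) := by
  obtain ⟨n1, h1⟩ := Run7.h867.HW.lw_lower hab ha hb hne
  obtain ⟨n2, h2⟩ := Run7.h867.HW.params ha
  have hwpos : ∀ n, 2 ≤ n → 0 < #(Run7.h867.HW.hw n) := by
    intro n hn
    by_contra h0
    rw [not_lt, Nat.le_zero] at h0
    have h1 := Run7.h867.HW.hw_lower (n - 2)
    rw [show n - 2 + 2 = n by omega, h0, Nat.cast_zero, zero_mul] at h1
    have := Run7.h867.HW.rt_pos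
    exact absurd h1 (not_le.2 (by positivity))
  have hlpos : ∀ n, n1 + n2 + 2 ≤ n → 0 < #(Run7.h867.HW.lw r n) := by
    intro n hn
    by_contra h0
    rw [not_lt, Nat.le_zero] at h0
    have h3 := h1 n (by omega)
    rw [h0, Nat.cast_zero, mul_zero] at h3
    have h4 : (0 : ℝ) < #(Run7.h867.HW.hw n) := by exact_mod_cast hwpos n (by omega)
    linarith
  refine ⟨n1 + n2 + 2, by omega, hlpos, ?_⟩
  intro rev w M x y hw hM hMw hy
  obtain ⟨hL1, l, t, q, hl0, ht, h6, hq, hp1, hp2, hp3⟩ := h2 w (by omega)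
  obtain ⟨L, hL⟩ : ∃ L : ℝ, L = Real.log w := ⟨_, rfl⟩
  rw [← hL] at hL1 hp1 hp3 ⊢
  have hw0 : (0 : ℝ) < w := by exact_mod_cast (by omega : 0 < w)
  have hMr : (M : ℝ) ≤ w := by exact_mod_cast hMw
  have hr0 := Run7.h867.HW.rt_pos
  have hr34 := Run7.h867.HW.rt_gt
  have hx4 : (Run7.h867.HW.rt ^ 4)⁻¹ ≤ 4 := by
    rw [inv_le_comm₀ (by positivity) (by norm_num)]
    have : (3 / 4 : ℝ) ^ 4 ≤ Run7.h867.HW.rt ^ 4 := by gcongr
    norm_num at this ⊢
    linarith
  have hwin := Run7.h867.HW.lyn_window (M := M) hr ha hl0 ht h6 hq rev x y hy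
  have hterm : ∀ n ∈ Ico w (w + M), (#((lf r rev n).filter fun l => x ≤ Real.logb 2 |Run7.h867.MZ.mz l| ∧
        Real.logb 2 |Run7.h867.MZ.mz l| ≤ x + y) : ℝ) / #(lf r rev n) ≤
      80000 * w * ∑ s ∈ (Run7.h867.HW.hw n).filter (fun s => Run7.h867.HW.IsLyn r (if rev then s.reverse else s) ∧
      x ≤ Real.logb 2 (Run7.h867.AM.V (Run7.h867.HW.wn s)) ∧
      Real.logb 2 (Run7.h867.AM.V (Run7.h867.HW.wn s)) ≤ x + y), Run7.h867.HW.rt ^ n := by
    intro n hn
    rw [mem_Ico] at hn
    have e : (lf r rev n).filter (fun l => x ≤ Real.logb 2 |Run7.h867.MZ.mz l| ∧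
        Real.logb 2 |Run7.h867.MZ.mz l| ≤ x + y) =
        (Run7.h867.HW.hw n).filter (fun s => Run7.h867.HW.IsLyn r (if rev then s.reverse else s) ∧
      x ≤ Real.logb 2 (Run7.h867.AM.V (Run7.h867.HW.wn s)) ∧
      Real.logb 2 (Run7.h867.AM.V (Run7.h867.HW.wn s)) ≤ x + y) := by
      rw [lf, filter_filter]
      refine filter_congr fun s hs => ?_
      rw [abs_same (by omega) hs]
    rw [e, lf_card, sum_const, nsmul_eq_mul]
    obtain ⟨X, hX⟩ : ∃ X : ℝ, X = #((Run7.h867.HW.hw n).filter (fun s =>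
      Run7.h867.HW.IsLyn r (if rev then s.reverse else s) ∧
      x ≤ Real.logb 2 (Run7.h867.AM.V (Run7.h867.HW.wn s)) ∧
      Real.logb 2 (Run7.h867.AM.V (Run7.h867.HW.wn s)) ≤ x + y)) := ⟨_, rfl⟩
    have hX0 : 0 ≤ X := by rw [hX]; exact Nat.cast_nonneg _
    rw [← hX]
    have hlc : (0 : ℝ) < #(Run7.h867.HW.lw r n) := by exact_mod_cast hlpos n (by omega)
    have hnr : (n : ℝ) ≤ 2 * w := by
      have : n ≤ 2 * w := by omega
      exact_mod_cast this
    have hn0 : (0 : ℝ) < n := by exact_mod_cast (by omega : 0 < n)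
    have h3 := h1 n (by omega)
    have h4 := Run7.h867.HW.hw_lower (n - 2)
    rw [show n - 2 + 2 = n by omega] at h4
    have hpn : 0 < Run7.h867.HW.rt ^ n := by positivity
    rw [div_le_iff₀ hlc]
    obtain ⟨A, hA⟩ : ∃ A : ℝ, A = #(Run7.h867.HW.hw n) := ⟨_, rfl⟩
    obtain ⟨B, hB⟩ : ∃ B : ℝ, B = #(Run7.h867.HW.lw r n) := ⟨_, rfl⟩
    rw [← hA] at h3 h4
    rw [← hB] at h3 hlc ⊢
    have h5 : 1 ≤ 4 * (A * Run7.h867.HW.rt ^ n) := by
      calc (1 : ℝ) = (Run7.h867.HW.rt ^ 4)⁻¹ * Run7.h867.HW.rt ^ 4 := by field_simp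
        _ ≤ 4 * (A * Run7.h867.HW.rt ^ n) := mul_le_mul hx4 h4 (by positivity) (by norm_num)
    have h7 : A ≤ 20000 * w * B := by
      refine h3.trans ?_
      have : 10000 * (n : ℝ) ≤ 20000 * w := by linarith
      exact mul_le_mul_of_nonneg_right this hlc.le
    calc X = X * 1 := (mul_one X).symm
      _ ≤ X * (4 * (A * Run7.h867.HW.rt ^ n)) := mul_le_mul_of_nonneg_left h5 hX0
      _ ≤ X * (4 * (20000 * w * B * Run7.h867.HW.rt ^ n)) := by
          refine mul_le_mul_of_nonneg_left ?_ hX0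
          refine mul_le_mul_of_nonneg_left ?_ (by norm_num)
          exact mul_le_mul_of_nonneg_right h7 hpn.le
      _ = _ := by ring
  refine (sum_le_sum hterm).trans ?_
  rw [← mul_sum]
  have h8000 : 0 ≤ 80000 * (w : ℝ) := by positivity
  refine (mul_le_mul_of_nonneg_left hwin h8000).trans ?_
  have hlog2 : 0 < Real.log 2 := Real.log_pos (by norm_num)
  have hlog2' : Real.log 2 ≤ 1 := by
    have := Real.log_le_sub_one_of_pos (show (0 : ℝ) < 2 by norm_num)
    linarith
  have hlt : L / 2 ≤ Real.logb 2 t := by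
    refine le_trans ?_ hp3
    refine div_le_div_of_nonneg_left (by linarith) (by positivity) (by linarith)
  have hlt0 : 0 < Real.logb 2 t := by linarith
  have e1 : y / (2 * Real.logb 2 t) + 1 ≤ (y + L) / L := by
    rw [add_div, div_self (by linarith : L ≠ 0)]
    have : y / (2 * Real.logb 2 t) ≤ y / L := div_le_div_of_nonneg_left hy (by linarith) (by linarith)
    linarith
  have e2 : (M : ℝ) * (1 - Run7.h867.HW.rt ^ (a * l)) ^ q ≤ 1 / w := by
    calc (M : ℝ) * (1 - Run7.h867.HW.rt ^ (a * l)) ^ q ≤ w * (1 / (w : ℝ) ^ 2) :=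
          mul_le_mul hMr hp2 (pow_nonneg (by
            have : Run7.h867.HW.rt ^ (a * l) ≤ 1 := pow_le_one₀ hr0.le (by linarith [Run7.h867.HW.rt_lt])
            linarith) q) hw0.le
      _ = 1 / w := by field_simp
  have hyL : 0 ≤ (y + L) / L := by positivity
  calc 80000 * (w : ℝ) * (Run7.h867.HW.rt ^ (a * l) * (y / (2 * Real.logb 2 t) + 1) +
        M * (1 - Run7.h867.HW.rt ^ (a * l)) ^ q)
      ≤ 80000 * (w : ℝ) * (100 * L ^ 2 / w * ((y + L) / L) + 1 / w) := by
        refine mul_le_mul_of_nonneg_left ?_ h8000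
        refine add_le_add ?_ e2
        exact mul_le_mul hp1 e1 (by positivity) (by positivity)
    _ = 8000000 * (L * (y + L)) + 80000 := by
        have hL0 : L ≠ 0 := by linarith
        field_simp
        ring
    _ ≤ 10 ^ 8 * (L * (y + L)) := by
        have h9 : 1 ≤ L * (y + L) := by nlinarith
        linarith

/-- there are `C` and `n₀` such that for both orders of the letters and both directions of reading there are Lyndon words of
all weights `n ≥ n₀`, and for `w ≥ n₀` and `1 ≤ M ≤ w` the average over the tuples of weights in the window `[w, w + M)` of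
the proportion of the exceptional tuples of Lyndon words is small -/
theorem result : (∀ n, (words n).Finite) ∧
    (∀ n : ℕ, 1 ≤ n → ∀ w ∈ words n, Tendsto (trunc w) atTop (𝓝 (zeta w)) ∧ 0 < zeta w) ∧
    ∃ (C : ℝ) (n₀ : ℕ), 0 < C ∧
    ∀ r : ℕ → ℕ → Prop, (r = (fun a b => a < b) ∨ r = fun a b => b < a) → ∀ rev : Bool,
    (∀ n, n₀ ≤ n → 0 < (lyndon r rev n).ncard) ∧
    ∀ (N : ℕ) (S : Finset (Fin N →₀ ℕ)) (H w M : ℕ), S.Nonempty → 1 ≤ H → n₀ ≤ w → 1 ≤ M → M ≤ w →
      ∑ W ∈ Fintype.piFinset fun _ : Fin N => Finset.Ico w (w + M),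
          ((exceptional r rev S H W).ncard : ℝ) / ∏ i, ((lyndon r rev (W i)).ncard : ℝ) ≤
        C * ((#S).choose 2 : ℝ) * (Real.log w * (Real.log (#S * H) + Real.log w) / M) * (M : ℝ) ^ N := by
  classical
  refine ⟨fun n => by rw [words_same]; exact Finset.finite_toSet _, ?_, ?_⟩
  · intro n hn w hw
    have h1 : trunc w = Run7.h867.MZ.tr w := funext (trunc_same w)
    rw [words_same, mem_coe] at hw
    rw [h1, zeta_same]
    exact ⟨Run7.h867.MZ.tendsto_tr (adm_of hn hw), mz_pos hn hw⟩
  have d2 : (2 : ℕ) ∈ Run7.h867.HW.D23 := by rw [Run7.h867.HW.mem_D23]; exact Or.inl rfl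
  have d3 : (3 : ℕ) ∈ Run7.h867.HW.D23 := by rw [Run7.h867.HW.mem_D23]; exact Or.inr rfl
  obtain ⟨n1, g1, p1, h1⟩ := estimate (r := fun a b => a < b) (a := 2) (b := 3) (by norm_num) d2 d3 (by norm_num) (by
    intro c hc
    rw [Run7.h867.HW.mem_D23] at hc
    omega)
  obtain ⟨n2, g2, p2, h2⟩ := estimate (r := fun a b => b < a) (a := 3) (b := 2) (by norm_num) d3 d2 (by norm_num) (by
    intro c hc
    rw [Run7.h867.HW.mem_D23] at hc
    omega)
  refine ⟨3 * 10 ^ 8, n1 + n2, by norm_num, ?_⟩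
  intro r hr rev
  have hlpos : ∀ n, n1 + n2 ≤ n → 0 < #(Run7.h867.HW.lw r n) := by
    intro n hn
    rcases hr with rfl | rfl
    · exact p1 n (by omega)
    · exact p2 n (by omega)
  have hest : ∀ (w M : ℕ) (x y : ℝ), n1 + n2 ≤ w → 1 ≤ M → M ≤ w → 0 ≤ y →
      ∑ n ∈ Ico w (w + M), (#((lf r rev n).filter fun l => x ≤ Real.logb 2 |Run7.h867.MZ.mz l| ∧
        Real.logb 2 |Run7.h867.MZ.mz l| ≤ x + y) : ℝ) / #(lf r rev n) ≤
      10 ^ 8 * (Real.log w * (y + Real.log w)) := by
    intro w M x y hw hM hMw hy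
    rcases hr with rfl | rfl
    · exact h1 rev w M x y (by omega) hM hMw hy
    · exact h2 rev w M x y (by omega) hM hMw hy
  have hlc : ∀ n, (lyndon r rev n).ncard = #(lf r rev n) := by
    intro n
    rw [lyndon_same, Set.ncard_coe_finset]
  refine ⟨fun n hn => by rw [hlc, lf_card]; exact hlpos n hn, ?_⟩
  intro N S H w M hS hH hw hM hMw
  have hlog2 : 0 < Real.log 2 := Real.log_pos (by norm_num)
  have hSH : (1 : ℝ) ≤ #S * H := by
    have h1 : 1 ≤ #S * H := Nat.one_le_iff_ne_zero.2 (Nat.mul_ne_zero (card_pos.2 hS).ne' (by omega))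
    exact_mod_cast h1
  have hK0 : 0 ≤ Real.log (#S * H) := Real.log_nonneg hSH
  have hL0 : 0 ≤ Real.log w := Real.log_natCast_nonneg w
  have hM0 : (0 : ℝ) < M := by exact_mod_cast hM
  have hy : 2 * Real.logb 2 (#S * H) ≤ 3 * Real.log (#S * H) := by
    rw [Real.logb]
    have h3 : (2 : ℝ) / 3 ≤ Real.log 2 := by
      have := Real.log_two_gt_d9
      linarith
    rw [mul_div_assoc', div_le_iff₀ hlog2]
    nlinarith
  have hy0 : 0 ≤ 2 * Real.logb 2 (#S * H) := by
    have := Real.logb_nonneg (b := 2) (by norm_num) hSH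
    linarith
  obtain ⟨κ, hκ⟩ : ∃ κ : ℝ, κ = 3 * 10 ^ 8 * (Real.log w * (Real.log (#S * H) + Real.log w) / M) := ⟨_, rfl⟩
  have hκ0 : 0 ≤ κ := by rw [hκ]; positivity
  have hgen := Run7.h867.HW.window_general (N := N) (lf r rev) (fun n s hs => by
      rw [lf, mem_filter] at hs
      exact (Run7.h867.HW.mem_hw.1 hs.1).2) Run7.h867.MZ.mz w M (fun n hn s hs => by
      rw [lf, mem_filter] at hs
      rw [mem_Ico] at hn
      exact (mz_pos (by omega) hs.1).ne') (fun n hn => by
      rw [mem_Ico] at hn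
      rw [lf_card]
      exact hlpos n (by omega)) κ hκ0 S H hH hS (fun x => by
      refine (hest w M x _ hw hM hMw hy0).trans ?_
      rw [hκ]
      have e : 3 * 10 ^ 8 * (Real.log w * (Real.log (#S * H) + Real.log w) / M) * M =
          10 ^ 8 * (Real.log w * (3 * Real.log (#S * H) + 3 * Real.log w)) := by
        field_simp
      rw [e]
      refine mul_le_mul_of_nonneg_left (mul_le_mul_of_nonneg_left ?_ hL0) (by norm_num)
      linarith)
  refine le_trans (sum_le_sum fun W _ => ?_) (hgen.trans (le_of_eq ?_))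
  · have hsub : exceptional r rev S H W ⊆
        (((Fintype.piFinset fun i => lf r rev (W i)).filter fun u =>
        Run7.h867.GT.Bad S H fun i => Run7.h867.MZ.mz (u i) : Finset (Fin N → List ℕ)) : Set (Fin N → List ℕ)) := by
      intro u hu
      obtain ⟨hu1, P, hP0, hP, hc, hor⟩ := hu
      rw [mem_coe, mem_filter, Fintype.mem_piFinset]
      have hmem : ∀ i, u i ∈ lf r rev (W i) := by
        intro i
        have := hu1 i
        rw [lyndon_same, mem_coe] at this
        exact this
      refine ⟨hmem, P, hP0, hP, hc, ?_⟩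
      simp only [zeta_same] at hor
      exact hor
    have h1 := Set.ncard_le_ncard hsub (Finset.finite_toSet _)
    rw [Set.ncard_coe_finset] at h1
    simp only [hlc]
    refine div_le_div_of_nonneg_right ?_ (prod_nonneg fun i _ => Nat.cast_nonneg _)
    exact_mod_cast h1
  · rw [hκ]
    ring

end Pool.Agent.Results.MP_2000e9_nt.TypicalLyndonWeights
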