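import Mathlib
import Pool.Agent.Run7.h53.TI.Main

/-!
# MP_2000e9_nt: typical tuples of the Hoffman elements satisfy no linear relation of subexponential height

Let `hoffman n` be the set of the words of weight `n` in the letters `2` and `3`. There are `d_n` such words, and their
multiple zeta values span the space of multiple zeta values of weight `n` (Brown), so that the conjecture says that all the
values `ζ(w)`, `w ∈ hoffman n`, `n ≥ 0`, are linearly independent over the rational numbers. We prove for almost all tuples: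
among the `N`-tuples of words `w_i ∈ hoffman (k_i)`, `k_i ≥ n`, the proportion of those for which `1, ζ(w_1), ..., ζ(w_N)`
satisfy a linear relation with integer coefficients, the coefficients of the `ζ(w_i)` not all zero and at most `K` in absolute
value, is at most `C N ^ 2 (1 + log (N K)) / √n`, `C` absolute. So typical tuples, even of about `n ^ (1/4)` words of different
weights, have no relation of height `exp (n ^ (1/2 - ε))`.

Proof. If `w'` arises from the word `w` of length `k` by the exchange of a `3` with a `2` behind it, the `2` in the last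
quarter and the distance `2 [k / 4]`, then `ζ(w') ≥ (1 + 5 / 42) ζ(w)`: the quotient is the mean value of the quotient of the
two summation variables, and the variable of a letter in the last quarter is not much larger than `k` in the mean (`conc`,
from growth inequalities for truncated sums and tails). Divide the words into cubes by exchanging `[k / 4]` disjoint pairs
of positions. In a cube the words with `ζ(w)` in `[v, (1 + 5 / 42) v)` form an antichain, Sperner's theorem bounds their number,
and only exponentially few words lie in cubes of small dimension. So `log ζ(w)` lies in a given interval of length `h` with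
probability `O((1 + h) / √n)`. In a relation of height `K` two of the values have a quotient between `1 / (N K)` and `N K`.
-/

set_option autoImplicit false

namespace Pool.Agent.Results.MP_2000e9_nt.TypicalTuples

/-- the multiple zeta value of the list `l`, the first entry belongs to the largest summation variable:
`mzv [a_1, ..., a_m]` is `ζ(a_m, ..., a_1)` in the notation of the problem -/
noncomputable def mzv (l : List ℕ) : ℝ :=
  ∑' m : {m : Fin l.length → ℕ // StrictAnti m ∧ ∀ i, 0 < m i}, ∏ i, ((m.1 i : ℝ) ^ (l.get i))⁻¹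

/-- the words of weight `n` in the letters `2` and `3` -/
def hoffman (n : ℕ) : Set (List ℕ) := {w | (∀ x ∈ w, x = 2 ∨ x = 3) ∧ w.sum = n}

lemma mzv_eq {l : List ℕ} (hl : Pool.Agent.H447R2.MZ.Adm l) : mzv l = Pool.Agent.H447R2.MZ.val l := by
  have h1 := Pool.Agent.H447R2.MZ.hasSum_val l.length l.get (by rw [List.ofFn_get]; exact hl)
  rw [List.ofFn_get] at h1
  exact h1.tsum_eq

lemma coe_hw (n : ℕ) : ((Run7.h53.TI.hw n : Finset (List ℕ)) : Set (List ℕ)) = hoffman n := by
  ext w
  rw [Finset.mem_coe, Run7.h53.TI.mem_hw]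
  rfl

lemma card_hw (n : ℕ) : (hoffman n).ncard = (Run7.h53.TI.hw n).card := by
  rw [← coe_hw, Set.ncard_coe_finset]

/-- **Theorem.** There is a constant `C` such that
(1) for `n ≥ 1`, `v > 0` and `K ≥ 1` a proportion at most `C (1 + log K) / √n` of the words in `hoffman n` has its multiple
zeta value in `[v, K v]`;
(2) for all `k_1, ..., k_N ≥ n ≥ 1` and `K ≥ 1` a proportion at most `C N ^ 2 (1 + log (N K)) / √n` of the tuples of words
`w_i ∈ hoffman (k_i)` has the property that there are real numbers `c_0, c_1, ..., c_N` with `c_0 + ∑ c_i ζ(w_i) = 0`, where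
`c_0` is zero or at least `1` in absolute value, each `c_i` is zero or between `1` and `K` in absolute value, and
`c_1, ..., c_N` are not all zero. (All these sets are finite.) -/
theorem result : (∀ n, (hoffman n).Finite) ∧ ∃ C : ℝ, 0 < C ∧
    (∀ n : ℕ, 1 ≤ n → ∀ v K : ℝ, 0 < v → 1 ≤ K →
      (({w ∈ hoffman n | v ≤ mzv w ∧ mzv w ≤ K * v}.ncard : ℕ) : ℝ) ≤
        C * (1 + Real.log K) / Real.sqrt n * ((hoffman n).ncard : ℝ)) ∧
    (∀ (N n : ℕ) (k : Fin N → ℕ), 1 ≤ n → (∀ i, n ≤ k i) → ∀ K : ℝ, 1 ≤ K →
      (({w : Fin N → List ℕ | (∀ i, w i ∈ hoffman (k i)) ∧ ∃ (c0 : ℝ) (c : Fin N → ℝ),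
          (c0 = 0 ∨ 1 ≤ |c0|) ∧ (∀ i, c i = 0 ∨ (1 ≤ |c i| ∧ |c i| ≤ K)) ∧ (∃ i, c i ≠ 0) ∧
          c0 + ∑ i, c i * mzv (w i) = 0}.ncard : ℕ) : ℝ) ≤
        C * (N : ℝ) ^ 2 * (1 + Real.log (N * K)) / Real.sqrt n * ∏ i, ((hoffman (k i)).ncard : ℝ)) := by
  classical
  refine ⟨fun n => by rw [← coe_hw]; exact Finset.finite_toSet _, ?_⟩
  obtain ⟨C1, hC1, h1⟩ := Run7.h53.TI.long_window
  obtain ⟨C2, hC2, h2⟩ := Run7.h53.TI.tuples
  refine ⟨C1 + C2, by positivity, fun n hn v K hv hK => ?_, fun N n k hn hk K hK => ?_⟩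
  · have hs : 0 < Real.sqrt n := Real.sqrt_pos.2 (by exact_mod_cast hn)
    have hL : 0 ≤ Real.log K := Real.log_nonneg hK
    have e : {w ∈ hoffman n | v ≤ mzv w ∧ mzv w ≤ K * v} =
        (((Run7.h53.TI.hw n).filter fun w : List ℕ => v ≤ Pool.Agent.H447R2.MZ.val w ∧
          Pool.Agent.H447R2.MZ.val w ≤ K * v : Finset (List ℕ)) : Set (List ℕ)) := by
      ext w
      rw [Finset.mem_coe, Finset.mem_filter, ← Finset.mem_coe, coe_hw]
      constructor
      · rintro ⟨h3, h4, h5⟩
        have h6 : mzv w = _ := mzv_eq (Run7.h53.TI.hw_adm (Finset.mem_coe.1 (by rw [coe_hw]; exact h3)))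
        rw [h6] at h4 h5
        exact ⟨h3, h4, h5⟩
      · rintro ⟨h3, h4, h5⟩
        have h6 : mzv w = _ := mzv_eq (Run7.h53.TI.hw_adm (Finset.mem_coe.1 (by rw [coe_hw]; exact h3)))
        rw [← h6] at h4 h5
        exact ⟨h3, h4, h5⟩
    rw [e, Set.ncard_coe_finset, card_hw]
    refine (h1 n hn v K hv hK).trans ?_
    have h3 : C1 ≤ C1 + C2 := by linarith
    gcongr
  · have hs : 0 < Real.sqrt n := Real.sqrt_pos.2 (by exact_mod_cast hn)
    set B : Set (Fin N → List ℕ) := {w : Fin N → List ℕ | (∀ i, w i ∈ hoffman (k i)) ∧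
      ∃ (c0 : ℝ) (c : Fin N → ℝ), (c0 = 0 ∨ 1 ≤ |c0|) ∧ (∀ i, c i = 0 ∨ (1 ≤ |c i| ∧ |c i| ≤ K)) ∧
        (∃ i, c i ≠ 0) ∧ c0 + ∑ i, c i * mzv (w i) = 0} with hB
    have hfin : B.Finite := by
      refine (Set.Finite.pi' fun i => ?_ : {w : Fin N → List ℕ | ∀ i, w i ∈ hoffman (k i)}.Finite).subset
        fun w hw' => hw'.1
      rw [← coe_hw]
      exact Finset.finite_toSet _
    rw [Set.ncard_eq_toFinset_card B hfin]
    have h3 := h2 N n k hn hk K hK hfin.toFinset fun w hw' => ?_
    · simp only [card_hw]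
      refine h3.trans ?_
      rcases Nat.eq_zero_or_pos N with rfl | hN
      · simp
      · have hN1 : (1 : ℝ) ≤ N := by exact_mod_cast hN
        have hNK : 1 ≤ (N : ℝ) * K := by nlinarith
        have hL : 0 ≤ Real.log (N * K) := Real.log_nonneg hNK
        have h4 : C2 ≤ C1 + C2 := by linarith
        gcongr
    · obtain ⟨h4, c0, c, h5, h6, h7, h8⟩ := hfin.mem_toFinset.1 hw'
      have h9 : ∀ i, w i ∈ Run7.h53.TI.hw (k i) := fun i => Finset.mem_coe.1 (by rw [coe_hw]; exact h4 i)
      refine ⟨h9, c, h6, h7, ?_⟩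
      have h10 : ∑ i, c i * mzv (w i) = ∑ i, c i * Pool.Agent.H447R2.MZ.val (w i) :=
        Finset.sum_congr rfl fun i _ => by rw [mzv_eq (Run7.h53.TI.hw_adm (h9 i))]
      rw [h10] at h8
      rcases h5 with h5 | h5
      · left
        rw [h5, zero_add] at h8
        exact h8
      · right
        have h11 : ∑ i, c i * Pool.Agent.H447R2.MZ.val (w i) = -c0 := by linarith
        rw [h11, abs_neg]
        exact h5

end Pool.Agent.Results.MP_2000e9_nt.TypicalTuples
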